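import Pool.Agent.H11.Srch
import Pool.Agent.Results.MP_e5cbc1_lc.NPHard

set_option autoImplicit false

namespace Pool.Agent.Results.MP_c8d28d_lc.Search
open Pool.Agent.H11.PT

/-- a graph: number of vertices and edge list -/
abbrev Gr := ℕ × List (ℕ × ℕ)

/-- number of neighbours of `v` that come before `v` in the list `o` -/
noncomputable def dm (y : Gr) (o : List ℕ) (v : Fin y.1) : ℕ :=
  {w | (gr y.1 y.2).Adj v w ∧ o.idxOf w.val < o.idxOf v.val}.ncard
/-- number of neighbours of `v` that come after `v` in the list `o` -/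
noncomputable def dp (y : Gr) (o : List ℕ) (v : Fin y.1) : ℕ :=
  {w | (gr y.1 y.2).Adj v w ∧ o.idxOf v.val < o.idxOf w.val}.ncard

/-- `o` lists every vertex once and is a Type-A order -/
def OrdA (y : Gr) (o : List ℕ) : Prop :=
  o.Perm (List.range y.1) ∧ ∀ v, Odd (dm y o v) ∨ dm y o v = 0
/-- `o` lists every vertex once and is a Type-B order -/
def OrdB (y : Gr) (o : List ℕ) : Prop :=
  o.Perm (List.range y.1) ∧ ∀ v, (Odd (dm y o v) ∨ dm y o v = 0) ∨ (Even (dm y o v) ∧ dp y o v = 0)

@[fun_prop] theorem pt_idx {α : Type} [Enc α] {l : α → List ℕ} {a : α → ℕ} (hl : PT l) (ha : PT a) :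
    PT fun x => (l x).idxOf (a x) :=
  (PT.foldr_add (g := fun x b c => bif b == a x then 0 else c + 1) hl (PT.const 0) (by fun_prop)
    (fun _ _ => ()) 2 (by fun_prop) (fun x c b => by cases b == a x <;> simp <;> omega)).of_eq
    fun x => by
      induction l x with
      | nil => rfl
      | cons b l ih => rw [List.foldr_cons, ih, List.idxOf_cons]

def cnt (y : Gr) (v : ℕ) (q : ℕ → Bool) : ℕ :=
  (List.range y.1).countP fun w => (!(v == w) && (y.2.contains (v, w) || y.2.contains (w, v))) && q w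

theorem cnt_eq (y : Gr) (v : Fin y.1) (q : ℕ → Prop) [DecidablePred q] :
    {w | (gr y.1 y.2).Adj v w ∧ q w.val}.ncard = cnt y v fun w => decide (q w) := by
  rw [cnt, ← Set.ncard_image_of_injective _ Fin.val_injective, List.countP_eq_length_filter,
    ← List.toFinset_card_of_nodup (List.nodup_range.filter _), ← Set.ncard_coe_finset]
  congr 1
  ext w
  simp only [Set.mem_image, Set.mem_ofPred_eq, List.coe_toFinset, List.mem_filter, gr,
    SimpleGraph.fromRel_adj, List.mem_range, Bool.and_eq_true, Bool.or_eq_true, List.contains_iff_mem,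
    decide_eq_true_eq, Bool.not_eq_true', beq_eq_false_iff_ne, ne_eq, Fin.ext_iff]
  exact ⟨fun ⟨j, h, e⟩ => e ▸ ⟨j.2, h⟩, fun h => ⟨⟨w, h.1⟩, h.2, rfl⟩⟩

theorem perm_iff (n : ℕ) (o : List ℕ) :
    o.Perm (List.range n) ↔ (o.length == n && (List.range n).all fun v => o.contains v) = true := by
  simp only [Bool.and_eq_true, beq_iff_eq, List.all_eq_true, List.contains_iff_mem]
  exact ⟨fun h => ⟨by simpa using h.length_eq, fun v hv => h.mem_iff.2 hv⟩, fun h =>
    ((List.subperm_of_subset List.nodup_range h.2).perm_of_length_le (by simp [h.1])).symm⟩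

theorem ord_exists {n : ℕ} (f : Fin n → ℕ) (hf : Function.Injective f) :
    ∃ o : List ℕ, o.Perm (List.range n) ∧
      ∀ v w : Fin n, o.idxOf w.val < o.idxOf v.val ↔ f w < f v := by
  let l := (List.finRange n).mergeSort fun a b => f a ≤ f b
  have h1 : l.Perm (List.finRange n) := List.mergeSort_perm _ _
  have h2 : l.Pairwise fun a b => decide (f a ≤ f b) = true :=
    List.pairwise_mergeSort (by simp only [decide_eq_true_eq]; omega) (by simp; omega) _
  have h3 : ∀ v, v ∈ l := fun v => h1.mem_iff.2 (List.mem_finRange v)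
  have h4 : ∀ v w, l.idxOf w < l.idxOf v → f w < f v := by
    intro v w h
    have := List.pairwise_iff_getElem.1 h2 _ _ (List.idxOf_lt_length_of_mem (h3 w))
      (List.idxOf_lt_length_of_mem (h3 v)) h
    simp only [List.getElem_idxOf, decide_eq_true_eq] at this
    exact lt_of_le_of_ne this fun e => by rw [hf e] at h; omega
  refine ⟨l.map Fin.val, (h1.map _).trans (by simp), fun v w => ?_⟩
  have h5 : ∀ (l : List (Fin n)) (v : Fin n), (l.map Fin.val).idxOf v.val = l.idxOf v := by
    intro l v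
    induction l with
    | nil => rfl
    | cons a l ih => simp only [List.map_cons, List.idxOf_cons, ih]; congr 1; simp [Fin.ext_iff]
  rw [h5, h5]
  refine ⟨h4 v w, fun h => ?_⟩
  rcases lt_trichotomy (l.idxOf w) (l.idxOf v) with e | e | e
  · exact e
  · rw [(List.idxOf_inj (h3 w)).1 e] at h; omega
  · have := h4 _ _ e; omega

theorem inj {n : ℕ} {o : List ℕ} (h : o.Perm (List.range n)) :
    Function.Injective fun v : Fin n => o.idxOf v.val := fun v _ e =>
  Fin.ext ((List.idxOf_inj (h.mem_iff.2 (List.mem_range.2 v.2))).1 e)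

theorem bnd {n : ℕ} {o : List ℕ} (h : o.Perm (List.range n)) : o.length ≤ n ∧ ∀ a ∈ o, a < n :=
  ⟨by simp [h.length_eq], fun _ ha => List.mem_range.1 (h.mem_iff.1 ha)⟩

open Pool.Agent.Results.MP_e5cbc1_lc in
theorem result :
    ((∃ A : Gr → List ℕ, PolyTime bits bits A ∧ ∀ y, (∃ o, OrdA y o) → OrdA y (A y)) ↔ PeqNP) ∧
    ((∃ A : Gr → List ℕ, PolyTime bits bits A ∧ ∀ y, (∃ o, OrdB y o) → OrdB y (A y)) ↔ PeqNP) := by
  have a : ∀ y : Gr, NPHard.TypeA (gr y.1 y.2) ↔ ∃ o, OrdA y o := fun y =>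
    ⟨fun ⟨f, h1, h2⟩ => by
      obtain ⟨o, e1, e2⟩ := ord_exists f h1
      exact ⟨o, e1, by simp only [dm, e2]; exact h2⟩, fun ⟨o, h1, h2⟩ => ⟨_, inj h1, h2⟩⟩
  have b : ∀ y : Gr, NPHard.TypeB (gr y.1 y.2) ↔ ∃ o, OrdB y o := fun y =>
    ⟨fun ⟨f, h1, h2⟩ => by
      obtain ⟨o, e1, e2⟩ := ord_exists f h1
      exact ⟨o, e1, by simp only [dm, dp, e2]; exact h2⟩, fun ⟨o, h1, h2⟩ => ⟨_, inj h1, h2⟩⟩
  have c : ∀ (y : Gr) (o : List ℕ) v, dm y o v = cnt y v fun w => o.idxOf w < o.idxOf v.val :=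
    fun y o v => cnt_eq y v fun w => o.idxOf w < o.idxOf v.val
  have d : ∀ (y : Gr) (o : List ℕ) v, dp y o v = cnt y v fun w => o.idxOf v.val < o.idxOf w :=
    fun y o v => cnt_eq y v fun w => o.idxOf v.val < o.idxOf w
  constructor
  · refine search_iff (chk := fun y o => (o.length == y.1 && (List.range y.1).all fun v =>
      o.contains v) && (List.range y.1).all fun v =>
        cnt y v (fun w => o.idxOf w < o.idxOf v) % 2 == 1 ||
        cnt y v (fun w => o.idxOf w < o.idxOf v) == 0) (by unfold cnt; fun_prop) (fun y o => ?_)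
      Prod.fst (by fun_prop) (fun _ _ h => bnd h.1) (hard_SAT3.red _ NPHard.red_pt fun φ =>
        Iff.trans ⟨NPHard.complete φ, fun h => NPHard.sound φ (NPHard.AB h)⟩ (a _))
    rw [Bool.and_eq_true, ← perm_iff, OrdA]
    simp only [c, List.all_eq_true, List.mem_range, Bool.or_eq_true, beq_iff_eq, Nat.odd_iff]
    exact and_congr Iff.rfl ⟨fun h v hv => h ⟨v, hv⟩, fun h v => h v v.2⟩
  · refine search_iff (chk := fun y o => (o.length == y.1 && (List.range y.1).all fun v =>
      o.contains v) && (List.range y.1).all fun v =>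
        (cnt y v (fun w => o.idxOf w < o.idxOf v) % 2 == 1 ||
        cnt y v (fun w => o.idxOf w < o.idxOf v) == 0) ||
        (cnt y v (fun w => o.idxOf w < o.idxOf v) % 2 == 0 &&
        cnt y v (fun w => o.idxOf v < o.idxOf w) == 0)) (by unfold cnt; fun_prop) (fun y o => ?_)
      Prod.fst (by fun_prop) (fun _ _ h => bnd h.1) (hard_SAT3.red _ NPHard.red_pt fun φ =>
        Iff.trans ⟨fun h => NPHard.AB (NPHard.complete φ h), NPHard.sound φ⟩ (b _))
    rw [Bool.and_eq_true, ← perm_iff, OrdB]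
    simp only [c, d, List.all_eq_true, List.mem_range, Bool.or_eq_true, beq_iff_eq, Nat.odd_iff,
      Nat.even_iff, Bool.and_eq_true]
    exact and_congr Iff.rfl ⟨fun h v hv => h ⟨v, hv⟩, fun h v => h v v.2⟩

end Pool.Agent.Results.MP_c8d28d_lc.Search
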